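import Pool.Agent.H18.HIT.Targets

/-!
Board hit_modules, row BIN: the coefficients of ((1 + T) ^ M - 1) ^ r.
-/

set_option autoImplicit false

open MvPolynomial
open Pool.Agent.H12.ZD (pmap v O Res DenseOrbit NoInv)
open Pool.Agent.H18.HIT

namespace Pool.Agent.H64.HIT

theorem two_mul_lt_pow (p : ℕ) (hp : 3 ≤ p) (e : ℕ) : 2 * e + 1 ≤ p ^ e := by
  induction e with
  | zero => simp
  | succ e ih =>
    rw [pow_succ]
    nlinarith

theorem v_low (p : Nat.Primes) (hp : 3 ≤ (p : ℕ)) (i : ℕ) :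
    1 ≤ v p (((i + 1 : ℕ)) : Qb) ^ 2 * ((p : ℕ) : ℝ) ^ i := by
  obtain ⟨e, u, hu, he⟩ := Nat.exists_eq_pow_mul_and_not_dvd (Nat.succ_ne_zero i) (p : ℕ)
    p.2.ne_one
  have hp0 : (0 : ℝ) < ((p : ℕ) : ℝ) := by exact_mod_cast p.2.pos
  have hp1 : (1 : ℝ) ≤ ((p : ℕ) : ℝ) := by exact_mod_cast p.2.one_le
  have h1 : v p (((i + 1 : ℕ)) : Qb) = (((p : ℕ) : ℝ)⁻¹) ^ e := by
    rw [show i + 1 = (p : ℕ) ^ e * u from he, Nat.cast_mul, Nat.cast_pow,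
      Pool.Agent.H12.ZD.v_mul, Pool.Agent.H12.ZD.v_pow, Pool.Agent.H12.ZD.v_self,
      Pool.Agent.H12.ZD.v_natCast_eq p hu, mul_one]
  have hu1 : 1 ≤ u := by
    rcases Nat.eq_zero_or_pos u with h | h
    · exact absurd (h ▸ dvd_zero _) hu
    · exact h
  have h2 : 2 * e ≤ i := by
    have h3 := two_mul_lt_pow (p : ℕ) hp e
    have h4 : (p : ℕ) ^ e * 1 ≤ (p : ℕ) ^ e * u := Nat.mul_le_mul_left _ hu1
    have h5 : i + 1 = (p : ℕ) ^ e * u := he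
    omega
  rw [h1, ← pow_mul, inv_pow]
  have h3 : ((p : ℕ) : ℝ) ^ (e * 2) ≤ ((p : ℕ) : ℝ) ^ i := pow_le_pow_right₀ hp1 (by omega)
  have h4 : (0 : ℝ) < ((p : ℕ) : ℝ) ^ (e * 2) := by positivity
  calc (1 : ℝ) = (((p : ℕ) : ℝ) ^ (e * 2))⁻¹ * ((p : ℕ) : ℝ) ^ (e * 2) := by
        rw [inv_mul_cancel₀ h4.ne']
    _ ≤ (((p : ℕ) : ℝ) ^ (e * 2))⁻¹ * ((p : ℕ) : ℝ) ^ i :=
        mul_le_mul_of_nonneg_left h3 (by positivity)

theorem v_choose (p : Nat.Primes) (hp : 3 ≤ (p : ℕ)) (M i : ℕ) (s : ℝ) (hs : 0 < s)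
    (hs2 : s ^ 2 = ((p : ℕ) : ℝ)) :
    v p ((M.choose (i + 1) : ℕ) : Qb) ≤ v p (M : Qb) * s ^ i := by
  rcases Nat.eq_zero_or_pos M with h0 | h0
  · subst h0
    rw [Nat.choose_zero_succ, Nat.cast_zero, Pool.Agent.H12.ZD.v_zero, zero_mul]
  obtain ⟨m, rfl⟩ : ∃ m, M = m + 1 := ⟨M - 1, by omega⟩
  have h1 : ((m + 1 : ℕ) : Qb) * ((m.choose i : ℕ) : Qb) =
      (((m + 1).choose (i + 1) : ℕ) : Qb) * ((i + 1 : ℕ) : Qb) := by
    have := Nat.add_one_mul_choose_eq m i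
    exact_mod_cast this
  have h2 : v p (((m + 1).choose (i + 1) : ℕ) : Qb) * v p ((i + 1 : ℕ) : Qb) ≤
      v p ((m + 1 : ℕ) : Qb) := by
    rw [← Pool.Agent.H12.ZD.v_mul, ← h1, Pool.Agent.H12.ZD.v_mul]
    exact mul_le_of_le_one_right (Pool.Agent.H12.ZD.v_nonneg p _)
      (Pool.Agent.H12.ZD.v_natCast_le p _)
  have h3 := v_low p hp i
  have h4 : 1 ≤ v p ((i + 1 : ℕ) : Qb) * s ^ i := by
    have h5 : (1 : ℝ) ^ 2 ≤ (v p ((i + 1 : ℕ) : Qb) * s ^ i) ^ 2 := by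
      rw [one_pow, mul_pow, ← pow_mul, mul_comm i 2, pow_mul, hs2]
      exact h3
    exact (sq_le_sq₀ zero_le_one (mul_nonneg (Pool.Agent.H12.ZD.v_nonneg p _)
      (by positivity))).1 h5
  have h6 := Pool.Agent.H12.ZD.v_nonneg p (((m + 1).choose (i + 1) : ℕ) : Qb)
  calc v p (((m + 1).choose (i + 1) : ℕ) : Qb)
      ≤ v p (((m + 1).choose (i + 1) : ℕ) : Qb) * (v p ((i + 1 : ℕ) : Qb) * s ^ i) :=
        le_mul_of_one_le_right h6 h4
    _ = v p (((m + 1).choose (i + 1) : ℕ) : Qb) * v p ((i + 1 : ℕ) : Qb) * s ^ i := by ring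
    _ ≤ v p ((m + 1 : ℕ) : Qb) * s ^ i := mul_le_mul_of_nonneg_right h2 (by positivity)

theorem coeff_q (M i : ℕ) : ((1 + Polynomial.X) ^ M - 1 : Polynomial ℤ).coeff i =
    if i = 0 then 0 else (M.choose i : ℤ) := by
  rw [Polynomial.coeff_sub, Polynomial.coeff_one_add_X_pow, Polynomial.coeff_one]
  split_ifs with h
  · rw [h, Nat.choose_zero_right]
    simp
  · simp

theorem coeff_low (M r a : ℕ) (ha : a < r) :
    (((1 + Polynomial.X) ^ M - 1) ^ r : Polynomial ℤ).coeff a = 0 := by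
  have h1 : (Polynomial.X : Polynomial ℤ) ∣ (1 + Polynomial.X) ^ M - 1 := by
    rw [Polynomial.X_dvd_iff, coeff_q, if_pos rfl]
  exact Polynomial.X_pow_dvd_iff.1 (pow_dvd_pow_of_dvd h1 r) a ha

theorem v_coeff (p : Nat.Primes) (hp : 3 ≤ (p : ℕ)) (M : ℕ) (s : ℝ) (hs : 0 < s)
    (hs2 : s ^ 2 = ((p : ℕ) : ℝ)) (r : ℕ) : ∀ j : ℕ,
    v p ((((((1 + Polynomial.X) ^ M - 1) ^ r : Polynomial ℤ).coeff (r + j) : ℤ) : Qb)) ≤
      v p (M : Qb) ^ r * s ^ j := by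
  have hM := Pool.Agent.H12.ZD.v_nonneg p (M : Qb)
  induction r with
  | zero =>
    intro j
    rw [pow_zero, Polynomial.coeff_one, pow_zero, one_mul, zero_add]
    split_ifs with h
    · rw [h, pow_zero, Int.cast_one, Pool.Agent.H12.ZD.v_one]
    · rw [Int.cast_zero, Pool.Agent.H12.ZD.v_zero]
      positivity
  | succ r ih =>
    intro j
    rw [pow_succ, Polynomial.coeff_mul, Int.cast_sum]
    refine Pool.Agent.H12.ZD.v_sum_le p _ _ (by positivity) fun x hx => ?_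
    obtain ⟨a, b⟩ := x
    have hab : a + b = r + 1 + j := Finset.HasAntidiagonal.mem_antidiagonal.1 hx
    rw [Int.cast_mul, Pool.Agent.H12.ZD.v_mul]
    change v p (((((1 + Polynomial.X) ^ M - 1) ^ r : Polynomial ℤ).coeff a : ℤ) : Qb) *
      v p ((((1 + Polynomial.X) ^ M - 1 : Polynomial ℤ).coeff b : ℤ) : Qb) ≤ _
    by_cases h1 : a < r
    · rw [coeff_low M r a h1, Int.cast_zero, Pool.Agent.H12.ZD.v_zero, zero_mul]
      positivity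
    rcases Nat.eq_zero_or_pos b with h2 | h2
    · rw [coeff_q, if_pos h2, Int.cast_zero, Pool.Agent.H12.ZD.v_zero, mul_zero]
      positivity
    obtain ⟨j1, rfl⟩ : ∃ j1, a = r + j1 := ⟨a - r, by omega⟩
    obtain ⟨j2, rfl⟩ : ∃ j2, b = j2 + 1 := ⟨b - 1, by omega⟩
    obtain rfl : j = j1 + j2 := by omega
    have h3 := ih j1
    have h4 : v p ((((1 + Polynomial.X) ^ M - 1 : Polynomial ℤ).coeff (j2 + 1) : ℤ) : Qb) ≤
        v p (M : Qb) * s ^ j2 := by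
      rw [coeff_q, if_neg (Nat.succ_ne_zero j2), Int.cast_natCast]
      exact v_choose p hp M j2 s hs hs2
    refine (mul_le_mul h3 h4 (Pool.Agent.H12.ZD.v_nonneg p _) (by positivity)).trans
      (le_of_eq ?_)
    ring

theorem pf_BIN : T_BIN := by
  intro p M r j hp _
  have hp0 : (0 : ℝ) < ((p : ℕ) : ℝ) := by exact_mod_cast p.2.pos
  have hs2 : Real.sqrt ((p : ℕ) : ℝ) ^ 2 = ((p : ℕ) : ℝ) := Real.sq_sqrt hp0.le
  have h1 := v_coeff p hp M _ (Real.sqrt_pos.2 hp0) hs2 r j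
  refine (pow_le_pow_left₀ (Pool.Agent.H12.ZD.v_nonneg p _) h1 2).trans (le_of_eq ?_)
  rw [mul_pow, ← pow_mul, ← pow_mul, mul_comm r 2, mul_comm j 2, pow_mul (Real.sqrt _), hs2]

end Pool.Agent.H64.HIT
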